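import Pool.Agent.Helper98.DE.St

/-!
# Project DE, MODULE SQB: the number of edges
-/

set_option autoImplicit false

namespace Pool.Agent.Helper73.DE

open Pool.Agent.Helper98.DE
open Pool.Agent.Helper51.AJ (IsMinor Planar Apex ExMinor Con Tch)
open Pool.Agent.Helper12.NK (rst Kc cnt)
open Pool.Agent.Helper12.MA (dl Srv)

/-- the first real inequality -/
private theorem real1 {m n D k : ℕ} (hn : 6 ≤ n) (h1 : m + 8 ≤ 3 * n + D) (h2 : D ≤ 4 * k)
    (h3 : 3 ≤ k → k * D + 13 ≤ 3 * n + 4 * k) :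
    (m : ℝ) ≤ 3 * (n : ℝ) - 6 + 2 * Real.sqrt (3 * ((n : ℝ) - 3)) := by
  have hnr : (6 : ℝ) ≤ n := by exact_mod_cast hn
  have h1r : (m : ℝ) + 8 ≤ 3 * n + D := by exact_mod_cast h1
  rcases Nat.lt_or_ge 8 D with h9 | h8
  · have hk : 3 ≤ k := by omega
    have h4 := h3 hk
    have h4r : (k : ℝ) * D + 13 ≤ 3 * n + 4 * k := by exact_mod_cast h4
    have h2r : (D : ℝ) ≤ 4 * k := by exact_mod_cast h2
    have h9r : (9 : ℝ) ≤ D := by exact_mod_cast h9
    have h5 : (D : ℝ) * (D - 4) ≤ 4 * k * (D - 4) := mul_le_mul_of_nonneg_right h2r (by linarith)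
    have h6 : (((D : ℝ) - 2) / 2) ^ 2 ≤ 3 * ((n : ℝ) - 3) := by nlinarith
    have h7 : ((D : ℝ) - 2) / 2 ≤ Real.sqrt (3 * ((n : ℝ) - 3)) := Real.le_sqrt_of_sq_le h6
    linarith
  · have h8r : (D : ℝ) ≤ 8 := by exact_mod_cast h8
    have h7 : (3 : ℝ) ≤ Real.sqrt (3 * ((n : ℝ) - 3)) := by
      apply Real.le_sqrt_of_sq_le
      linarith
    linarith

/-- the second real inequality -/
private theorem real2 {m n D k : ℕ} (hn : 6 ≤ n) (h1 : m + 5 ≤ 2 * n + D) (h2 : D ≤ 4 * k)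
    (h3 : 3 ≤ k → k * D + 8 ≤ 2 * n + 3 * k) :
    (m : ℝ) ≤ 2 * (n : ℝ) - 7 / 2 + 2 * Real.sqrt (2 * (n : ℝ)) := by
  have hnr : (6 : ℝ) ≤ n := by exact_mod_cast hn
  have h1r : (m : ℝ) + 5 ≤ 2 * n + D := by exact_mod_cast h1
  rcases Nat.lt_or_ge 8 D with h9 | h8
  · have hk : 3 ≤ k := by omega
    have h4 := h3 hk
    have h4r : (k : ℝ) * D + 8 ≤ 2 * n + 3 * k := by exact_mod_cast h4
    have h2r : (D : ℝ) ≤ 4 * k := by exact_mod_cast h2
    have h9r : (9 : ℝ) ≤ D := by exact_mod_cast h9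
    have h5 : (D : ℝ) * (D - 3) ≤ 4 * k * (D - 3) := mul_le_mul_of_nonneg_right h2r (by linarith)
    have h6 : (((D : ℝ) - 3 / 2) / 2) ^ 2 ≤ 2 * (n : ℝ) := by nlinarith
    have h7 : ((D : ℝ) - 3 / 2) / 2 ≤ Real.sqrt (2 * (n : ℝ)) := Real.le_sqrt_of_sq_le h6
    linarith
  · have h8r : (D : ℝ) ≤ 8 := by exact_mod_cast h8
    have h7 : (13 / 4 : ℝ) ≤ Real.sqrt (2 * (n : ℝ)) := by
      apply Real.le_sqrt_of_sq_le
      linarith
    linarith

theorem hSQB : StPCI → StCRI → StSVB → StYB4 → StHIG → StSQB := by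
  classical
  intro hPCI hCRI hSVB hYB4 hHIG V _ G hG
  obtain ⟨hnp, hn6, hd⟩ := hCRI V G hG
  rw [Nat.card_eq_fintype_card] at hn6
  obtain ⟨-, -, -, -, -, hp1, hp2⟩ := hPCI V G Finset.univ
  have hsum : ∑ v, dg G v = 2 * G.edgeSet.ncard := hp1.symm.trans hp2
  by_cases hE : ∃ x y, G.Adj x y
  · obtain ⟨x₀, y₀, hxy₀⟩ := hE
    obtain ⟨s₀, hs₀⟩ := hd x₀ y₀ hxy₀
    obtain ⟨Z, hZ⟩ : ∃ Z : Finset V, Z = Finset.univ.filter (fun s => ∃ x y, Srv G s x y) :=
      ⟨_, rfl⟩
    have hmem : ∀ s, s ∈ Z ↔ ∃ x y, Srv G s x y := by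
      intro s
      rw [hZ]
      simp
    have hne : Z.Nonempty := ⟨s₀, (hmem s₀).2 ⟨x₀, y₀, hs₀⟩⟩
    obtain ⟨z, hz, hmin⟩ := Finset.exists_min_image Z (dg G) hne
    obtain ⟨x, y, hsrv⟩ := (hmem z).1 hz
    have h5 : 5 ≤ Fintype.card V := by omega
    obtain ⟨a1, a2⟩ := hSVB V G h5 z x y hsrv
    have hnot : z ∉ Z.erase z := Finset.notMem_erase z Z
    -- (1)
    have hD : dg G z ≤ 4 * (Z.erase z).card := by
      have e1 : dg G z = (Finset.univ.filter (fun w => G.Adj z w)).card := by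
        unfold dg
        rw [← Set.ncard_coe_finset]
        congr 1
        ext w
        simp
      have e2 : Finset.univ.filter (fun w => G.Adj z w) ⊆
          (Z.erase z).biUnion (fun b => Finset.univ.filter (fun w => G.Adj z w ∧ Srv G b z w)) := by
        intro w hw
        have hw' : G.Adj z w := by simpa using hw
        obtain ⟨b, hb⟩ := hd z w hw'
        rw [Finset.mem_biUnion]
        refine ⟨b, ?_, ?_⟩
        · rw [Finset.mem_erase]
          exact ⟨hb.1, (hmem b).2 ⟨z, w, hb⟩⟩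
        · simp [hw', hb]
      have e3 := Finset.card_biUnion_le_card_mul (Z.erase z)
        (fun b => Finset.univ.filter (fun w => G.Adj z w ∧ Srv G b z w)) 4 (by
          intro b _
          have h6 := hYB4 V G hnp b z
          rw [← Set.ncard_coe_finset]
          convert h6 using 2
          ext w
          simp)
      rw [e1]
      refine (Finset.card_le_card e2).trans (e3.trans ?_)
      omega
    -- (2)
    have hlow : (Z.erase z).card * dg G z ≤ ∑ w ∈ Z.erase z, dg G w := by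
      have := Finset.card_nsmul_le_sum (Z.erase z) (dg G) (dg G z) (by
        intro w hw
        exact hmin w (Finset.mem_of_mem_erase hw))
      simpa [smul_eq_mul] using this
    rw [hsum] at a1 a2
    refine ⟨real1 (D := dg G z) (k := (Z.erase z).card) hn6 (by omega) hD ?_, fun hT =>
      real2 (D := dg G z) (k := (Z.erase z).card) hn6 ?_ hD ?_⟩
    · intro hk
      have h7 := (hHIG V G h5 z x y hsrv (Z.erase z) hnot hk).1
      omega
    · have := a2 hT
      omega
    · intro hk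
      have h7 := (hHIG V G h5 z x y hsrv (Z.erase z) hnot hk).2 hT
      omega
  · push Not at hE
    have hempty : G.edgeSet = ∅ := by
      rw [Set.eq_empty_iff_forall_notMem]
      intro e
      induction e with
      | h a b =>
        rw [SimpleGraph.mem_edgeSet]
        exact hE a b
    have hm : G.edgeSet.ncard = 0 := by rw [hempty, Set.ncard_empty]
    have hnr : (6 : ℝ) ≤ (Fintype.card V : ℝ) := by exact_mod_cast hn6
    rw [hm]
    have s1 := Real.sqrt_nonneg (3 * ((Fintype.card V : ℝ) - 3))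
    have s2 := Real.sqrt_nonneg (2 * (Fintype.card V : ℝ))
    refine ⟨?_, fun _ => ?_⟩
    · push_cast
      linarith
    · push_cast
      linarith

end Pool.Agent.Helper73.DE
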